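import Mathlib
import Pool.Agent.Helper62.SubDefs
import Pool.Agent.Helper62.SubMain

namespace Pool.Agent.Results.MP_f89ea0_lc.FiniteSignature

open Cardinal Pool.Agent.Helper62.SubDefs

/-- There is a variety with finitely many operation symbols, defined by a finite set of identities,
such that the relation of having elementarily equivalent subalgebra lattices of free algebras, on
infinite cardinals, is neither the total relation, nor equivalence in the second-order logic of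
permutations, nor second-order equivalence. -/
theorem result : ∃ (S : Sig) (E : Set (Tm S ℕ × Tm S ℕ)), Finite S.Op ∧ E.Finite ∧
    (¬ ∀ κ μ : Cardinal.{0}, ℵ₀ ≤ κ → ℵ₀ ≤ μ → subRel S E κ μ) ∧
    (¬ ∀ κ μ : Cardinal.{0}, ℵ₀ ≤ κ → ℵ₀ ≤ μ → (subRel S E κ μ ↔ permRel κ μ)) ∧
    (¬ ∀ κ μ : Cardinal.{0}, ℵ₀ ≤ κ → ℵ₀ ≤ μ → (subRel S E κ μ ↔ secondRel κ μ)) := by
  obtain ⟨hop, hfin, ⟨κ, μ, hκ, hμ, h⟩, ⟨κ', μ', hκ', hμ', h1, h2, h3⟩⟩ :=
    Pool.Agent.Helper62.SubMain.main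
  exact ⟨_, _, hop, hfin, fun h' => h (h' κ μ hκ hμ), fun h' => h3 ((h' κ' μ' hκ' hμ').1 h1),
    fun h' => h2 ((h' κ' μ' hκ' hμ').1 h1)⟩

end Pool.Agent.Results.MP_f89ea0_lc.FiniteSignature
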